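import Pool.Agent.Helper79.T5E.StE

/-!
# Levels `5 p^n` (Theorem A): the argument of Cramer (from `Helper79/S7/M_Crm.lean`)
-/

set_option autoImplicit false

namespace Pool.Agent.Helper79.T5E

open Pool.Agent.Helper28.TH (OkH)
open Pool.Agent.Helper93.TLE (DDE)
open Pool.Agent.Helper28.T5 Pool.Agent.Helper83.T5C
open Pool.Agent.Helper79.S7 (evc)
open Pool.Agent.Helper14.CV (Homog EqC act Tl EqC.Tl)
open Pool.Agent.Helper28.WK (Tw evw)

/-- composition of a potential with an additive homomorphism -/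
private def mp {R S : Type} [AddCommGroup R] [AddCommGroup S] (φ : R →+ S) (G : ℤ → ℤ → R) :
    ℤ → ℤ → S := fun p q => φ (G p q)

private theorem Tl_mp {R S : Type} [AddCommGroup R] [AddCommGroup S] (φ : R →+ S) (l : ℕ) (m : ℤ)
    (G : ℤ → ℤ → R) : Tl l m (mp φ G) = mp φ (Tl l m G) := by
  funext p q
  simp only [Tl, mp, map_add, map_sum]

private theorem Tw_mp {R S : Type} [AddCommGroup R] [AddCommGroup S] (φ : R →+ S) (m : ℤ)
    (ls : List ℕ) (G : ℤ → ℤ → R) : Tw m ls (mp φ G) = mp φ (Tw m ls G) := by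
  induction ls with
  | nil => rfl
  | cons l ls ih =>
    show Tl l m (Tw m ls (mp φ G)) = mp φ (Tl l m (Tw m ls G))
    rw [ih, Tl_mp]

private theorem evw_mp {R S : Type} [AddCommGroup R] [AddCommGroup S] (φ : R →+ S) (m : ℤ)
    (ls : List ℕ) (G : ℤ → ℤ → R) : evw m ls (mp φ G) = φ (evw m ls G) := by
  unfold evw
  rw [Tw_mp]
  simp only [mp, map_sub]

private theorem evc_mp {R S : Type} [AddCommGroup R] [AddCommGroup S] (φ : R →+ S) (m : ℤ)
    (C : List (ℤ × List ℕ)) (G : ℤ → ℤ → R) : evc m C (mp φ G) = φ (evc m C G) := by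
  unfold evc
  rw [map_list_sum, List.map_map]
  congr 1
  refine List.map_congr_left fun c _ => ?_
  simp only [Function.comp_apply, evw_mp, map_zsmul]

private theorem evc_zero {R : Type} [AddCommGroup R] {p : ℕ} (m : ℤ) (C : List (ℤ × List ℕ))
    (hC : OkCH p C) (G : ℤ → ℤ → R) (h : ∀ ls, OkH 5 p ls → evw m ls G = 0) : evc m C G = 0 := by
  unfold evc
  refine List.sum_eq_zero fun x hx => ?_
  obtain ⟨c, hc, rfl⟩ := List.mem_map.1 hx
  rw [h c.2 (hC c hc), smul_zero]

/-- a linear combination as an additive homomorphism -/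
private def cmb {S ι : Type} [CommRing S] [Fintype ι] (c : ι → S) : (ι → S) →+ S :=
  AddMonoidHom.mk' (fun v => ∑ k, c k * v k) (fun v w => by
    simp only [Pi.add_apply, mul_add, Finset.sum_add_distrib])

private theorem evw_lin {S ι : Type} [CommRing S] [Fintype ι] (c : ι → S) (G : ι → ℤ → ℤ → S)
    (m : ℤ) (ls : List ℕ) :
    evw m ls (fun x y => ∑ k, c k * G k x y) = ∑ k, c k * evw m ls (G k) := by
  have h1 : evw m ls (fun x y => ∑ k, c k * G k x y) = cmb c (evw m ls fun x y k => G k x y) :=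
    evw_mp (cmb c) m ls (fun x y k => G k x y)
  rw [h1]
  refine Finset.sum_congr rfl fun k _ => ?_
  exact congrArg (c k * ·) (evw_mp (Pi.evalAddMonoidHom (fun _ : ι => S) k) m ls
    (fun x y k => G k x y)).symm

private theorem evc_lin {S ι : Type} [CommRing S] [Fintype ι] (c : ι → S) (G : ι → ℤ → ℤ → S)
    (m : ℤ) (C : List (ℤ × List ℕ)) :
    evc m C (fun x y => ∑ k, c k * G k x y) = ∑ k, c k * evc m C (G k) := by
  have h1 : evc m C (fun x y => ∑ k, c k * G k x y) =
      cmb c (evc m C (fun x y k => G k x y)) :=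
    evc_mp (cmb c) m C (fun x y k => G k x y)
  rw [h1]
  refine Finset.sum_congr rfl fun k _ => ?_
  exact congrArg (c k * ·) (evc_mp (Pi.evalAddMonoidHom (fun _ : ι => S) k) m C
    (fun x y k => G k x y)).symm

private theorem SymH_mp {R S : Type} [AddCommGroup R] [AddCommGroup S] (φ : R →+ S) {p r s : ℕ}
    {G : ℤ → ℤ → R} (h : SymH p r s G) : SymH p r s (mp φ G) := by
  refine ⟨fun k p q hk hpq => congrArg φ (h.1 k p q hk hpq), fun a b c d hd hb hc => ?_⟩
  obtain ⟨e, he⟩ := h.2 a b c d hd hb hc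
  refine ⟨φ e, fun p q hpq => ?_⟩
  have := congrArg φ (he p q hpq)
  rw [map_add] at this
  exact this

private theorem SymH_zero {p r s : ℕ} : SymH p r s (0 : ℤ → ℤ → ℤ) :=
  SymH.zero p r s

private theorem SymH_lin {ι : Type} [Fintype ι] {p r s : ℕ} (c : ι → ℤ) (G : ι → ℤ → ℤ → ℤ)
    (h : ∀ k, SymH p r s (G k)) : SymH p r s (fun x y => ∑ k, c k * G k x y) := by
  classical
  have h1 : (fun x y => ∑ k, c k * G k x y) = ∑ k, c k • G k := by
    funext x y
    rw [Finset.sum_apply, Finset.sum_apply]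
    rfl
  rw [h1]
  exact Finset.sum_induction (fun k => c k • G k) (fun H => SymH p r s H)
    (fun _ _ h1 h2 => SymH.add h1 h2) SymH_zero (fun k _ => SymH.smul (c k) (h k))

private theorem Tw_congr {R : Type} [AddCommGroup R] (p : ℕ) (m : ℤ) {G H : ℤ → ℤ → R}
    (h : EqC G H) (ls : List ℕ) (hls : OkH 5 p ls) : EqC (Tw m ls G) (Tw m ls H) := by
  induction ls with
  | nil => exact h
  | cons l ls ih =>
    have hl := hls l (by simp)
    exact EqC.Tl (ih fun l' hl' => hls l' (by simp [hl'])) hl.1.pos m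

private theorem evw_congr {R : Type} [AddCommGroup R] (p : ℕ) (m : ℤ) {G H : ℤ → ℤ → R}
    (h : EqC G H) (ls : List ℕ) (hls : OkH 5 p ls) : evw m ls G = evw m ls H := by
  obtain ⟨c, hc⟩ := Tw_congr p m h ls hls
  unfold evw
  rw [hc 1 0 (Or.inl one_ne_zero), hc 0 1 (Or.inr one_ne_zero)]
  abel

theorem hCrm (p D : ℕ) (dd : ℕ → ℕ) (hBas : BasH p D dd) (hDim : DimH p D dd) (hLft : LftH p) :
    CrmH p := by
  intro m M g hm hg hev
  obtain ⟨Gt, hGt, hEq⟩ := hLft m M g (by omega) hg
  obtain ⟨Gk, t, hGk, hOk, hdet⟩ := hBas m hm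
  set X : Matrix (Fin (DDE D dd m)) (Fin (DDE D dd m)) ℤ :=
    Matrix.of fun k l => evc 1 (t l) (Gk k) with hX
  set XC : Matrix (Fin (DDE D dd m)) (Fin (DDE D dd m)) ℂ := X.map (Int.castRingHom ℂ) with hXC
  have hd0 : X.det ≠ 0 := by
    intro h
    rw [h] at hdet
    exact hdet (dvd_zero _)
  have hdC : XC.det = (X.det : ℂ) := by
    rw [hXC]
    exact (RingHom.map_det (Int.castRingHom ℂ) X).symm
  have hdC0 : XC.det ≠ 0 := by
    rw [hdC]
    exact_mod_cast hd0
  set φ : ℤ →+ ℂ := Int.castAddHom ℂ with hφ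
  have hφa : ∀ z : ℤ, φ z = (z : ℂ) := fun z => rfl
  have hXCa : ∀ k l, XC k l = evc 1 (t l) (mp φ (Gk k)) := by
    intro k l
    rw [evc_mp, hφa]
    rfl
  -- functions killed by the words are killed by all values
  have hkill : ∀ (ι : Type) [Fintype ι] (c : ι → ℂ) (G : ι → ℤ → ℤ → ℂ),
      (∀ ls, OkH 5 p ls → ∑ k, c k * evw 1 ls (G k) = 0) →
      ∀ C, OkCH p C → ∑ k, c k * evc 1 C (G k) = 0 := by
    intro ι _ c G h C hC
    rw [← evc_lin]
    refine evc_zero 1 C hC _ (fun ls hls => ?_)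
    rw [evw_lin]
    exact h ls hls
  have hevL : ∀ (G : ℤ → ℤ → ℂ) ls, OkH 5 p ls → evLH p G ls = evw 1 ls G := by
    intro G ls hls
    exact if_pos hls
  -- independence
  have hind : LinearIndependent ℂ (fun k => evLH p (mp φ (Gk k))) := by
    rw [Fintype.linearIndependent_iff]
    intro c hc
    have h0 : ∀ ls, OkH 5 p ls → ∑ k, c k * evw 1 ls (mp φ (Gk k)) = 0 := by
      intro ls hls
      have h2 := congrFun hc ls
      simp only [Finset.sum_apply, Pi.smul_apply, Pi.zero_apply, smul_eq_mul, hevL _ ls hls] at h2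
      exact h2
    have h1 : Matrix.vecMul c XC = 0 := by
      funext l
      have h2 := hkill _ c _ h0 (t l) (hOk l)
      simp only [Matrix.vecMul, dotProduct, Pi.zero_apply]
      rw [← h2]
      refine Finset.sum_congr rfl fun k _ => ?_
      rw [hXCa]
    have h3 := Matrix.eq_zero_of_vecMul_eq_zero hdC0 h1
    exact fun k => congrFun h3 k
  have hspan := hDim m (fun k => mp φ (Gk k)) hm (fun k => SymH_mp φ (hGk k)) hind (mp φ Gt)
    (SymH_mp φ hGt)
  rw [Submodule.mem_span_range_iff_exists_fun] at hspan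
  obtain ⟨y, hy⟩ := hspan
  have hyw : ∀ ls, OkH 5 p ls →
      ∑ k, y k * ((evw 1 ls (Gk k) : ℤ) : ℂ) = ((evw 1 ls Gt : ℤ) : ℂ) := by
    intro ls hls
    have h2 := congrFun hy ls
    simp only [Finset.sum_apply, Pi.smul_apply, smul_eq_mul, hevL _ ls hls, evw_mp, hφa] at h2
    exact h2
  have hy' : ∀ C, OkCH p C →
      ∑ k, y k * ((evc 1 C (Gk k) : ℤ) : ℂ) = ((evc 1 C Gt : ℤ) : ℂ) := by
    intro C hC
    have h2 := hkill (Option (Fin (DDE D dd m))) (fun o => o.elim (-1) y)
      (fun o => mp φ (o.elim Gt Gk)) (fun ls hls => by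
        rw [Fintype.sum_option]
        simp only [Option.elim_none, Option.elim_some, evw_mp, hφa]
        rw [hyw ls hls]
        ring) C hC
    rw [Fintype.sum_option] at h2
    simp only [Option.elim_none, Option.elim_some, evc_mp, hφa] at h2
    linear_combination h2
  -- divisibility
  have hdiv : ∀ l, (p : ℤ) ^ M ∣ evc 1 (t l) Gt := by
    intro l
    have h1 : evc 1 (t l) (mp (Int.castAddHom (ZMod (p ^ M))) Gt) = 0 := by
      refine evc_zero 1 (t l) (hOk l) _ (fun ls hls => ?_)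
      have h3 : evw 1 ls (mp (Int.castAddHom (ZMod (p ^ M))) Gt) = evw 1 ls g :=
        evw_congr p 1 hEq ls hls
      rw [h3]
      exact hev ls hls
    rw [evc_mp] at h1
    have h2 : ((evc 1 (t l) Gt : ℤ) : ZMod (p ^ M)) = 0 := h1
    rw [ZMod.intCast_zmod_eq_zero_iff_dvd] at h2
    exact_mod_cast h2
  choose e he using hdiv
  set z : Fin (DDE D dd m) → ℤ :=
    fun k => ∑ l, e l * X.adjugate l k with hz
  have hdy : ∀ k, (X.det : ℂ) * y k = (p : ℂ) ^ M * (z k : ℂ) := by
    intro k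
    have h1 : Matrix.vecMul y XC =
        fun l => ((evc 1 (t l) Gt : ℤ) : ℂ) := by
      funext l
      rw [← hy' (t l) (hOk l)]
      simp only [Matrix.vecMul, dotProduct]
      refine Finset.sum_congr rfl fun k _ => ?_
      rw [hXCa, evc_mp]
      rfl
    have h2 : Matrix.vecMul (Matrix.vecMul y XC) XC.adjugate = XC.det • y := by
      rw [Matrix.vecMul_vecMul, Matrix.mul_adjugate, Matrix.vecMul_smul, Matrix.vecMul_one]
    have h3 : XC.adjugate = X.adjugate.map (Int.castRingHom ℂ) := by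
      rw [hXC]
      exact (RingHom.map_adjugate (Int.castRingHom ℂ) X).symm
    have h4 := congrFun h2 k
    rw [h1, h3, hdC] at h4
    simp only [Matrix.vecMul, dotProduct, Pi.smul_apply, smul_eq_mul, Matrix.map_apply] at h4
    rw [← h4, hz]
    push_cast
    rw [Finset.mul_sum]
    refine Finset.sum_congr rfl fun l _ => ?_
    rw [he]
    push_cast
    simp only [eq_intCast]
    ring
  set cc : Option (Fin (DDE D dd m)) → ℤ := fun o => o.elim X.det (fun k => -((p : ℤ) ^ M * z k))
    with hcc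
  set GG : Option (Fin (DDE D dd m)) → ℤ → ℤ → ℤ := fun o => o.elim Gt Gk with hGG
  refine ⟨X.det, fun x y => ∑ o, cc o * GG o x y, hdet, ?_, ?_, ?_⟩
  · refine SymH_lin cc GG fun o => ?_
    cases o with
    | none => exact hGt
    | some k => exact hGk k
  · intro ls hls
    rw [evw_lin, Fintype.sum_option]
    simp only [hcc, hGG, Option.elim_none, Option.elim_some]
    have h2 : ((X.det * evw 1 ls Gt + ∑ k, -((p : ℤ) ^ M * z k) * evw 1 ls (Gk k) : ℤ) : ℂ) = 0 := by
      have hdy2 := hdy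
      revert hdy2
      generalize X.det = d
      intro hdy2
      push_cast
      rw [← hyw ls hls, Finset.mul_sum, ← Finset.sum_add_distrib]
      refine Finset.sum_eq_zero fun k _ => ?_
      have := hdy2 k
      linear_combination ((evw 1 ls (Gk k) : ℤ) : ℂ) * this
    exact_mod_cast h2
  · obtain ⟨c, hc⟩ := hEq
    refine ⟨X.det • c, fun a b hpq => ?_⟩
    have h1 : ((Gt a b : ℤ) : ZMod (p ^ M)) = g a b + c := hc a b hpq
    have h3 : ((p : ZMod (p ^ M)) ^ M) = 0 := by
      have := ZMod.natCast_self (p ^ M)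
      push_cast at this
      exact this
    change ((∑ o, cc o * GG o a b : ℤ) : ZMod (p ^ M)) = X.det • g a b + X.det • c
    rw [Fintype.sum_option]
    simp only [hcc, hGG, Option.elim_none, Option.elim_some]
    generalize X.det = d
    push_cast
    rw [h1, h3, zsmul_eq_mul, zsmul_eq_mul]
    have h5 : ∑ k, -((0 : ZMod (p ^ M)) * (z k : ZMod (p ^ M))) * (Gk k a b : ZMod (p ^ M)) = 0 :=
      Finset.sum_eq_zero fun k _ => by rw [zero_mul, neg_zero, zero_mul]
    rw [h5]
    ring

end Pool.Agent.Helper79.T5E
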