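import Pool.Agent.Helper79.T5E.M_TA
import Pool.Agent.Helper79.T5E.M_Dim
import Pool.Agent.Helper79.T5E.M_Crm
import Pool.Agent.Helper79.T5E.M_Ks
import Pool.Agent.Helper79.T5E.M_Int
import Pool.Agent.Helper79.T5E.M_EvU

/-!
# Levels `5 p^n`: Theorem A for the symbols, assembled
-/

set_option autoImplicit false

namespace Pool.Agent.Helper79.T5E

open Pool.Agent.Helper93.TLE (DDE)
open Pool.Agent.Helper28.TH (OkH)
open Pool.Agent.Helper28.T5 Pool.Agent.Helper83.T5C

/-- Theorem A from the dimension bounds, an integral basis and the lifting of symbols. -/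
theorem hTAHof (p D : ℕ) (dd : ℕ → ℕ) (hp : p.Prime) (hpq : p ≠ 5) (avg : SHAvg) (com : SHCom)
    (ev : SHEv) (hks : SHHkS) (b3a : SHB3a) (b : B3bH p D) (ub : UBH p dd)
    (lb : LBH p D dd) (base : CoreV p 2) (bas : BasH p D dd) (lft : LftH p)
    (uip : Pool.Agent.Helper28.T5.UIpH) : TAHe p := by
  have dim := hDim p D dd hp hpq b3a b ub
  have nex := hNex p D dd hp hpq b3a b ub lb
  have evu : EvUH p := hEvU p hp hpq (fun R inst n G hG l hl h2 h3 => hks p hp hpq R inst n G hG l hl h2 h3)
  have ks := hKs avg com ev p hp hpq nex evu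
  have kk := hKk p ks base
  have crm := hCrm p D dd bas dim lft
  have int := hInt uip p hp hpq
  exact hTA avg com ev p hp hpq crm kk int

end Pool.Agent.Helper79.T5E
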