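import Pool.Agent.Helper79.THE.Mu3
import Pool.Agent.Helper93.T53.StD

/-!
# Levels `5·3^n`: lifting solutions of the relations from `ZMod q` (`q` odd) to the integers, planes of type `(r, 0)`
-/

set_option autoImplicit false

namespace Pool.Agent.Helper79.T5E

open Pool.Agent.Helper78.W3 (tr S3Trm)
open Pool.Agent.Helper93.T53
open Pool.Agent.Helper79.THE (liftOrd liftFn)
open Pool.Agent.Helper79.THE.Mu3

namespace LiftM3

private theorem inv2 (hm : S3Trm) {r : ℕ} (a b c : ℤ) (h : ¬ 3 ∣ a) (h2 : ¬ (3 : ℤ) ∣ a * a + 9 * b * c)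
    (p : Pq r) : (mu a b c (-a))^[2] p = p := by
  show mu a b c (-a) (mu a b c (-a) p) = p
  have h' : ¬ (3 : ℤ) ∣ -a := fun h0 => h ((dvd_neg).1 h0)
  rw [mu_mul hm h h' h h']
  have e2 : a * b + b * -a = 0 := by ring
  have e3 : c * a + -a * c = 0 := by ring
  have e4 : 9 * c * b + -a * -a = a * a + 9 * b * c := by ring
  rw [e2, e3, e4]
  exact mu_sc hm _ h2 p

theorem main (hm : S3Trm) (r q : ℕ) (hq : Odd q)
    (f : Fin 9 → ZMod (3 ^ r) → ZMod (3 ^ 0) → ZMod q) (hf : RelT f) :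
    ∃ F : Fin 9 → ZMod (3 ^ r) → ZMod (3 ^ 0) → ℤ, RelT F ∧
      ∀ i x y, ((F i x y : ℤ) : ZMod q) = f i x y := by
  have h2q : Nat.Coprime 2 q := Nat.coprime_two_left.2 hq
  obtain ⟨r5, r6, r7, r8, rr⟩ := hf
  obtain ⟨G5, a5, b5, c5⟩ := liftOrd 2 q (by norm_num) h2q (mu 20 3 (-15) (-20) : Pq r → Pq r)
    (inv2 hm 20 3 (-15) (by norm_num) (by norm_num)) (fun p => f 5 p.1 p.2) (fun p => by
      rw [Finset.sum_range_succ, Finset.sum_range_one]
      exact r5 p.1 p.2)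
  obtain ⟨G6, a6, b6, c6⟩ := liftOrd 2 q (by norm_num) h2q (mu 20 (-3) 15 (-20) : Pq r → Pq r)
    (inv2 hm 20 (-3) 15 (by norm_num) (by norm_num)) (fun p => f 6 p.1 p.2) (fun p => by
      rw [Finset.sum_range_succ, Finset.sum_range_one]
      exact r6 p.1 p.2)
  obtain ⟨G7, a7, b7, c7⟩ := liftOrd 2 q (by norm_num) h2q (mu 20 (-9) 5 (-20) : Pq r → Pq r)
    (inv2 hm 20 (-9) 5 (by norm_num) (by norm_num)) (fun p => f 7 p.1 p.2) (fun p => by
      rw [Finset.sum_range_succ, Finset.sum_range_one]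
      exact r7 p.1 p.2)
  obtain ⟨G8, a8, b8, c8⟩ := liftOrd 2 q (by norm_num) h2q (mu 25 (-14) 5 (-25) : Pq r → Pq r)
    (inv2 hm 25 (-14) 5 (by norm_num) (by norm_num)) (fun p => f 8 p.1 p.2) (fun p => by
      rw [Finset.sum_range_succ, Finset.sum_range_one]
      exact r8 p.1 p.2)
  obtain ⟨G1, c1⟩ := liftFn (P := Pq r) (fun p => f 1 p.1 p.2)
  obtain ⟨G2, c2⟩ := liftFn (P := Pq r) (fun p => f 2 p.1 p.2)
  obtain ⟨G3, c3⟩ := liftFn (P := Pq r) (fun p => f 3 p.1 p.2)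
  obtain ⟨G4, c4⟩ := liftFn (P := Pq r) (fun p => f 4 p.1 p.2)
  let k : Pq r → ℤ := fun p => (G1 p - G1 (mu 5 1 5 10 p)) + (G2 p - G2 (mu 65 12 15 25 p)) +
    (G3 p - G3 (mu 70 (-13) 15 (-25) p)) + (G4 p - G4 (mu 10 1 5 5 p)) + G5 p + G6 p + G7 p + G8 p
  have hk : ∑ p, k p = 0 := by
    have s1 := sum_mu hm (r := r) 5 1 5 10 (by norm_num) (by norm_num) (by norm_num) G1
    have s2 := sum_mu hm (r := r) 65 12 15 25 (by norm_num) (by norm_num) (by norm_num) G2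
    have s3 := sum_mu hm (r := r) 70 (-13) 15 (-25) (by norm_num) (by norm_num) (by norm_num) G3
    have s4 := sum_mu hm (r := r) 10 1 5 5 (by norm_num) (by norm_num) (by norm_num) G4
    simp only [k, Finset.sum_add_distrib, Finset.sum_sub_distrib]
    rw [s1, s2, s3, s4, b5, b6, b7, b8]
    ring
  obtain ⟨G0, d0, c0⟩ := solveM k hk (fun p => f 0 p.1 p.2) (fun p => by
    have h1 := rr p.1 p.2
    have h2 : (f 0 (mu 1 1 0 1 p).1 (mu 1 1 0 1 p).2 - f 0 p.1 p.2) +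
      (f 1 p.1 p.2 - f 1 (mu 5 1 5 10 p).1 (mu 5 1 5 10 p).2) +
      (f 2 p.1 p.2 - f 2 (mu 65 12 15 25 p).1 (mu 65 12 15 25 p).2) +
      (f 3 p.1 p.2 - f 3 (mu 70 (-13) 15 (-25) p).1 (mu 70 (-13) 15 (-25) p).2) +
      (f 4 p.1 p.2 - f 4 (mu 10 1 5 5 p).1 (mu 10 1 5 5 p).2) + f 5 p.1 p.2 + f 6 p.1 p.2 +
      f 7 p.1 p.2 + f 8 p.1 p.2 = 0 := h1
    show f 0 p.1 p.2 - f 0 (mu 1 1 0 1 p).1 (mu 1 1 0 1 p).2 = ((k p : ℤ) : ZMod q)
    simp only [k]
    push_cast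
    rw [c1, c1, c2, c2, c3, c3, c4, c4, c5, c6, c7, c8]
    linear_combination (-1 : ZMod q) * h2)
  refine ⟨![fun x y => G0 (x, y), fun x y => G1 (x, y), fun x y => G2 (x, y), fun x y => G3 (x, y),
    fun x y => G4 (x, y), fun x y => G5 (x, y), fun x y => G6 (x, y), fun x y => G7 (x, y),
    fun x y => G8 (x, y)], ⟨?_, ?_, ?_, ?_, ?_⟩, ?_⟩
  · intro x y
    have h := a5 (x, y)
    rw [Finset.sum_range_succ, Finset.sum_range_one] at h
    exact h
  · intro x y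
    have h := a6 (x, y)
    rw [Finset.sum_range_succ, Finset.sum_range_one] at h
    exact h
  · intro x y
    have h := a7 (x, y)
    rw [Finset.sum_range_succ, Finset.sum_range_one] at h
    exact h
  · intro x y
    have h := a8 (x, y)
    rw [Finset.sum_range_succ, Finset.sum_range_one] at h
    exact h
  · intro x y
    have h := d0 (x, y)
    simp only [k] at h
    show (G0 (mu 1 1 0 1 (x, y)) - G0 (x, y)) + (G1 (x, y) - G1 (mu 5 1 5 10 (x, y))) +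
      (G2 (x, y) - G2 (mu 65 12 15 25 (x, y))) + (G3 (x, y) - G3 (mu 70 (-13) 15 (-25) (x, y))) +
      (G4 (x, y) - G4 (mu 10 1 5 5 (x, y))) + G5 (x, y) + G6 (x, y) + G7 (x, y) + G8 (x, y) = 0
    linear_combination (-1 : ℤ) * h
  · intro i x y
    fin_cases i
    · exact c0 (x, y)
    · exact c1 (x, y)
    · exact c2 (x, y)
    · exact c3 (x, y)
    · exact c4 (x, y)
    · exact c5 (x, y)
    · exact c6 (x, y)
    · exact c7 (x, y)
    · exact c8 (x, y)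

end LiftM3

end Pool.Agent.Helper79.T5E
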