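import Pool.Agent.Helper79.T5E.StE

/-!
# Levels `5 p^n`: change of levels `(0, r+s)`, `(r, s)` for symbols
-/

set_option autoImplicit false

namespace Pool.Agent.Helper79.T5E

open Pool.Agent.Helper14.CV (Homog EqC act)
open Pool.Agent.Helper28.T5

namespace Lf

/-- the reduction modulo `q` -/
def rd (q : ℕ) (G : ℤ → ℤ → ℤ) : ℤ → ℤ → ZMod q :=
  fun u v => ((G u v : ℤ) : ZMod q)

theorem rd_Sym {p q r s : ℕ} {G : ℤ → ℤ → ℤ} (h : SymH p r s G) : SymH p r s (rd q G) := by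
  refine ⟨?_, ?_⟩
  · intro k u v hk hpq
    change ((G (k * u) (k * v) : ℤ) : ZMod q) = ((G u v : ℤ) : ZMod q)
    rw [h.1 k u v hk hpq]
  · intro a b c d hdet hb hc
    obtain ⟨e, he⟩ := h.2 a b c d hdet hb hc
    refine ⟨(e : ZMod q), ?_⟩
    intro u v hpq
    have h2 : G (a * u + b * v) (c * u + d * v) = G u v + e := he u v hpq
    change ((G (a * u + b * v) (c * u + d * v) : ℤ) : ZMod q) = ((G u v : ℤ) : ZMod q) + e
    rw [h2, Int.cast_add]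

private theorem q_of_pow {p : ℕ} (hp : ¬ 5 ∣ p) (r : ℕ) {x : ℤ} (h : (5 : ℤ) ∣ (p : ℤ) ^ r * x) :
    (5 : ℤ) ∣ x := by
  have h1 : ¬ (5 : ℤ) ∣ (p : ℤ) ^ r := by
    intro h2
    exact hp (by exact_mod_cast (by norm_num : Prime (5 : ℤ)).dvd_of_dvd_pow h2)
  exact ((by norm_num : Prime (5 : ℤ)).dvd_or_dvd h).resolve_left h1

/-- from level `(0, r + s)` to level `(r, s)` -/
theorem sym_up {R : Type} [AddCommGroup R] {p : ℕ} (hp : ¬ 5 ∣ p) {r s : ℕ} {g : ℤ → ℤ → R}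
    (h : SymH p 0 (r + s) g) : SymH p r s (fun u v => g u ((p : ℤ) ^ r * v)) := by
  have hp0 : (p : ℤ) ≠ 0 := by
    intro h0
    have : p = 0 := by exact_mod_cast h0
    rw [this] at hp
    exact hp (dvd_zero 5)
  have hnz : ∀ {u v : ℤ}, (u ≠ 0 ∨ v ≠ 0) → (u ≠ 0 ∨ (p : ℤ) ^ r * v ≠ 0) := by
    intro u v hpq
    rcases hpq with h0 | h0
    · exact Or.inl h0
    · exact Or.inr (mul_ne_zero (pow_ne_zero _ hp0) h0)
  refine ⟨?_, ?_⟩
  · intro k u v hk hpq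
    have e := h.1 k u ((p : ℤ) ^ r * v) hk (hnz hpq)
    have e1 : (p : ℤ) ^ r * (k * v) = k * ((p : ℤ) ^ r * v) := by ring
    change g (k * u) ((p : ℤ) ^ r * (k * v)) = g u ((p : ℤ) ^ r * v)
    rw [e1, e]
  · intro a b c d hdet hb hc
    obtain ⟨b', hb'⟩ := hb
    obtain ⟨c', hc'⟩ := hc
    have ed : a * d - b' * ((p : ℤ) ^ r * c) = a * d - b * c := by rw [hb']; ring
    have hty : HTy a b' ((p : ℤ) ^ r * c) d := by
      rcases hdet with ⟨h1, h2⟩ | ⟨h1, h2, h3, h4⟩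
      · exact Or.inl ⟨ed.trans h1, Dvd.dvd.mul_left h2 _⟩
      · exact Or.inr ⟨ed.trans h1, h2, Dvd.dvd.mul_left h3 _, h4⟩
    obtain ⟨k, hk⟩ := h.2 a b' ((p : ℤ) ^ r * c) d hty (by simp)
      ⟨c', by rw [hc', pow_add]; ring⟩
    refine ⟨k, ?_⟩
    intro u v hpq
    change g (a * u + b * v) ((p : ℤ) ^ r * (c * u + d * v)) = g u ((p : ℤ) ^ r * v) + k
    have e' : g (a * u + b' * ((p : ℤ) ^ r * v)) ((p : ℤ) ^ r * c * u + d * ((p : ℤ) ^ r * v)) =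
        g u ((p : ℤ) ^ r * v) + k := hk u ((p : ℤ) ^ r * v) (hnz hpq)
    have e1 : a * u + b * v = a * u + b' * ((p : ℤ) ^ r * v) := by rw [hb']; ring
    have e2 : (p : ℤ) ^ r * (c * u + d * v) = (p : ℤ) ^ r * c * u + d * ((p : ℤ) ^ r * v) := by ring
    rw [e1, e2, e']

/-- from level `(r, s)` to level `(0, r + s)` -/
theorem sym_down {R : Type} [AddCommGroup R] {p : ℕ} (hp : ¬ 5 ∣ p) {r s : ℕ} {G : ℤ → ℤ → R}
    (h : SymH p r s G) : SymH p 0 (r + s) (fun u v => G ((p : ℤ) ^ r * u) v) := by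
  have hp0 : (p : ℤ) ≠ 0 := by
    intro h0
    have : p = 0 := by exact_mod_cast h0
    rw [this] at hp
    exact hp (dvd_zero 5)
  have hnz : ∀ {u v : ℤ}, (u ≠ 0 ∨ v ≠ 0) → ((p : ℤ) ^ r * u ≠ 0 ∨ v ≠ 0) := by
    intro u v hpq
    rcases hpq with h0 | h0
    · exact Or.inl (mul_ne_zero (pow_ne_zero _ hp0) h0)
    · exact Or.inr h0
  refine ⟨?_, ?_⟩
  · intro k u v hk hpq
    have e := h.1 k ((p : ℤ) ^ r * u) v hk (hnz hpq)
    have e1 : (p : ℤ) ^ r * (k * u) = k * ((p : ℤ) ^ r * u) := by ring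
    change G ((p : ℤ) ^ r * (k * u)) (k * v) = G ((p : ℤ) ^ r * u) v
    rw [e1, e]
  · intro a b c d hdet _ hc
    obtain ⟨c', hc'⟩ := hc
    have ed : a * d - (p : ℤ) ^ r * b * ((p : ℤ) ^ s * c') = a * d - b * c := by
      rw [hc', pow_add]
      ring
    have ec : (5 : ℤ) ∣ c → (5 : ℤ) ∣ (p : ℤ) ^ s * c' := by
      intro h2
      have e : c = (p : ℤ) ^ r * ((p : ℤ) ^ s * c') := by rw [hc', pow_add]; ring
      rw [e] at h2
      exact q_of_pow hp r h2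
    have hty : HTy a ((p : ℤ) ^ r * b) ((p : ℤ) ^ s * c') d := by
      rcases hdet with ⟨h1, h2⟩ | ⟨h1, h2, h3, h4⟩
      · exact Or.inl ⟨ed.trans h1, ec h2⟩
      · exact Or.inr ⟨ed.trans h1, h2, ec h3, h4⟩
    obtain ⟨k, hk⟩ := h.2 a ((p : ℤ) ^ r * b) ((p : ℤ) ^ s * c') d hty
      (Dvd.intro _ rfl) (Dvd.intro _ rfl)
    refine ⟨k, ?_⟩
    intro u v hpq
    have e' : G (a * ((p : ℤ) ^ r * u) + (p : ℤ) ^ r * b * v) ((p : ℤ) ^ s * c' * ((p : ℤ) ^ r * u) + d * v) =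
        G ((p : ℤ) ^ r * u) v + k := hk ((p : ℤ) ^ r * u) v (hnz hpq)
    change G ((p : ℤ) ^ r * (a * u + b * v)) (c * u + d * v) = G ((p : ℤ) ^ r * u) v + k
    have e1 : (p : ℤ) ^ r * (a * u + b * v) = a * ((p : ℤ) ^ r * u) + (p : ℤ) ^ r * b * v := by ring
    have e2 : c * u + d * v = (p : ℤ) ^ s * c' * ((p : ℤ) ^ r * u) + d * v := by
      rw [hc', pow_add]
      ring
    rw [e1, e2, e']

end Lf

end Pool.Agent.Helper79.T5E
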