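import Pool.Agent.Helper79.T5E.Asm
import Pool.Agent.Helper79.T5E.M_Lft3
import Pool.Agent.Helper93.T53.LB
import Pool.Agent.Helper76.Q5P3.Ub
import Pool.Agent.Helper76.Bq.M_Bas53
import Pool.Agent.Helper83.T5C.Asm3
import Pool.Agent.Helper73.T5W.M_UIp

/-!
# Levels `5·3^n`: Theorem A for the symbols `SymH` and the prime `3`
-/

set_option autoImplicit false

namespace Pool.Agent.Helper79.T5E

open Pool.Agent.Helper83.T5C
open Pool.Agent.Helper93.T53 (dd5 lb53 triT lifT cntT trm relT' exT uniT)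

/-- Symbols of level `5·3^m`, `f | W_5 = f`: Theorem A modulo every power of `3`. -/
theorem taeQ3 : TAHe 3 :=
  hTAHof 3 2 dd5 (by norm_num) (by norm_num) avgQ hCom evQ hksQ b3aQ b3b3Q
    Pool.Agent.Helper76.Q5P3.ub35 lb53 (core32Q dd5 lb53)
    (Pool.Agent.Helper76.Bq.hBas53 triT lifT cntT) (hLft3 trm relT' exT uniT)
    Pool.Agent.Helper73.T5W.hUIp

/-- The hypothesis of the analytic part for the levels `5·3^n`. -/
theorem tahQ3 : Pool.Agent.Helper28.T5.TAH 3 24 := TAHe.toTAH taeQ3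

end Pool.Agent.Helper79.T5E
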